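import Pool.Agent.Lib.MP_65d7a7_an.Elementary
import Pool.Agent.Lib.MP_65d7a7_an.Convert

/-!
# Every Swiss cheese has a nonpeak point without nonzero bounded point derivations

Outline of the proof. Let `X` be compact with empty interior. If `x` carries a nonzero bounded
point derivation, then there are a functional `L` of norm at most `M` on `C(X)` with
`L ((ζ - x) g) = g x` for rational `g`, and a positive measure `μ` of mass at most `M` dominating
`L`. If `z` is near `x` and the potential of `μ` at `z` is small, then `z` lies in `X` and point
evaluation at `z` is close, in the norm of the dual, to point evaluation at `x`; by averaging over
discs there are many such `z`. Hence two points carrying derivations with the same bound `M` are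
close in the dual norm when they are close in the plane. If every nonpeak point carried a nonzero
bounded point derivation, Baire's theorem in the complete metric space of nonpeak points with the
dual (Gleason) norm would give a Gleason ball on which the bounds are uniform; taking the point of
this ball nearest to a hole of `X` near its centre gives a contradiction. Finally every Swiss
cheese has a nonpeak point, by Cauchy's formula over the (summable) boundary circles.
-/

namespace Pool.Agent.Results.MP_65d7a7_an.NoSwissCheese

open Pool.Agent.Lib.MP_65d7a7_an.Elementary

/-- **Answer to Q1: no.** Every Swiss cheese `X` has a nonpeak point `x` for `R(X)` at which every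
bounded point derivation on `R(X)` is zero. -/
theorem result (X : Set ℂ) (hX : IsSwissCheese X) :
    ∃ x : X, ¬ IsPeakPoint X x ∧
      ∀ D : (X → ℂ) → ℂ, IsBoundedPointDerivation X x D → ∀ f, MemR X f → D f = 0 :=
  Pool.Agent.Lib.MP_65d7a7_an.main hX

end Pool.Agent.Results.MP_65d7a7_an.NoSwissCheese
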